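import Pool.Agent.R784.DC.G5
import Pool.Agent.R784.DC.Sp
import Pool.Agent.R784.DC.J1
import Pool.Agent.R784.DC.J2

set_option autoImplicit false

/-!
MP_08245e, Q1 (the answer is yes): there is a connected graph (on 8008 vertices) that is not
distance-regular but has the same distance spectrum as a distance-regular graph, the Johnson graph
`J(16,6)`.
-/

namespace Pool.Agent.Results.MP_08245e_co.CospectralMate

open Pool.Agent.R784.DC

/-- Distance-cospectral graphs: the (real symmetric) distance matrices have the same
characteristic polynomial, that is the same eigenvalues with the same multiplicities. -/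
def DistanceCospectral {V W : Type} [Fintype V] [DecidableEq V] [Fintype W] [DecidableEq W]
    (G : SimpleGraph V) (Γ : SimpleGraph W) : Prop :=
  (distMat G).charpoly = (distMat Γ).charpoly

/-- **MP_08245e, Q1: positive answer.** The second graph is the Johnson graph `J(16,6)`. -/
theorem result : DistanceRegular J ∧
    ∃ (V : Type) (_ : Fintype V) (_ : DecidableEq V) (G : SimpleGraph V),
      Fintype.card V = 8008 ∧ G.Connected ∧ ¬ DistanceRegular G ∧ DistanceCospectral G J := by
  obtain ⟨Z, hZ, hJ⟩ := j2 j1.1
  refine ⟨j1.2, GV, inferInstance, inferInstance, G, card_GV, G_conn, not_dr, ?_⟩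
  have hcard : Fintype.card GV = Fintype.card JV := by
    rw [card_GV, Fintype.card_finset_len, Fintype.card_fin]
    decide
  have h := charpoly_eq K hcard (8008 : ℝ) ZG ZG_gram Z hZ
  unfold DistanceCospectral
  rw [ZG_dist, hJ]
  exact h

end Pool.Agent.Results.MP_08245e_co.CospectralMate
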